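import Mathlib
import Pool.Agent.X202.QGLCSpace

set_option autoImplicit false

/-!
# MP_142f15_an: a Banach space whose nearly unconditional bases have no uniform QGLC renorming
-/

open Pool.Agent.X202

namespace Pool.Agent.Results.MP_142f15_an.NoUniformRenorming

/-- Bases in the sense of greedy approximation: bounded complete biorthogonal systems with bounded
coordinate functionals. -/
structure IsBasis {X : Type} [NormedAddCommGroup X] [NormedSpace ℝ X] (x : ℕ → X)
    (xs : ℕ → X →L[ℝ] ℝ) : Prop where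
  bounded : ∃ B : ℝ, ∀ n, ‖x n‖ ≤ B
  dual_bounded : ∃ B : ℝ, ∀ n, ‖xs n‖ ≤ B
  biorth : ∀ m n, xs m (x n) = if m = n then 1 else 0
  dense : Dense (Submodule.span ℝ (Set.range x) : Set X)

/-- Nearly unconditional bases. -/
def IsNearlyUnconditional {X : Type} [NormedAddCommGroup X] [NormedSpace ℝ X] (x : ℕ → X)
    (xs : ℕ → X →L[ℝ] ℝ) : Prop :=
  ∀ a : ℝ, 0 < a → a ≤ 1 → ∃ C : ℝ, ∀ f : X, (∀ n, |xs n f| ≤ 1) →
    ∀ A : Finset ℕ, (∀ n ∈ A, a ≤ |xs n f|) → ‖∑ n ∈ A, xs n f • x n‖ ≤ C * ‖f‖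

/-- Equivalent norms. -/
def IsEquivNorm {X : Type} [NormedAddCommGroup X] [NormedSpace ℝ X] (N : Seminorm ℝ X) : Prop :=
  ∃ c C : ℝ, 0 < c ∧ ∀ f : X, c * ‖f‖ ≤ N f ∧ N f ≤ C * ‖f‖

/-- `L`-QGLC with respect to the norm `N`. -/
def IsQGLC {X : Type} [NormedAddCommGroup X] [NormedSpace ℝ X] (N : Seminorm ℝ X) (x : ℕ → X)
    (xs : ℕ → X →L[ℝ] ℝ) (L : ℝ) : Prop :=
  ∀ (A : Finset ℕ) (ε : ℕ → ℝ), (∀ n ∈ A, |ε n| = 1) → ∀ f : X, (∀ n, |xs n f| ≤ 1) →
    (∀ n ∈ A, xs n f = 0) →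
    N (∑ n ∈ A, ε n • x n) ≤ L * N (∑ n ∈ A, ε n • x n + f)

theorem finite_supp {X : Type} [NormedAddCommGroup X] [NormedSpace ℝ X] {x : ℕ → X}
    {xs : ℕ → X →L[ℝ] ℝ} (h : IsBasis x xs) {g : X} (hg : g ∈ Submodule.span ℝ (Set.range x)) :
    {n | xs n g ≠ 0}.Finite := by
  induction hg using Submodule.span_induction with
  | mem g hg =>
    obtain ⟨m, rfl⟩ := hg
    refine (Set.finite_singleton m).subset fun n hn => ?_
    by_contra hne
    apply hn
    have hne' : n ≠ m := fun h' => hne h'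
    rw [h.biorth, if_neg hne']
  | zero =>
    have : {n | xs n (0 : X) ≠ 0} = ∅ := by
      rw [Set.eq_empty_iff_forall_notMem]
      intro n hn
      exact hn (map_zero _)
    rw [this]
    exact Set.finite_empty
  | add y z _ _ hy hz =>
    refine (hy.union hz).subset fun n hn => ?_
    by_contra hcon
    rw [Set.mem_union, not_or] at hcon
    have h1 : xs n y = 0 := by by_contra h'; exact hcon.1 h'
    have h2 : xs n z = 0 := by by_contra h'; exact hcon.2 h'
    apply hn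
    rw [map_add, h1, h2, add_zero]
  | smul c y _ hy =>
    refine hy.subset fun n hn h' => hn ?_
    rw [map_smul, h', smul_zero]

/-- Coordinates tend to zero. -/
theorem finite_level {X : Type} [NormedAddCommGroup X] [NormedSpace ℝ X] {x : ℕ → X}
    {xs : ℕ → X →L[ℝ] ℝ} (h : IsBasis x xs) (f : X) (t : ℝ) (ht : 0 < t) :
    {n | t ≤ |xs n f|}.Finite := by
  obtain ⟨B, hB⟩ := h.dual_bounded
  have hB0 : 0 ≤ B := (norm_nonneg _).trans (hB 0)
  obtain ⟨g, hg1, hg2⟩ := Metric.mem_closure_iff.1 (h.dense f) (t / (B + 1)) (by positivity)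
  refine (finite_supp h hg1).subset ?_
  intro n hn h0
  have h1 : |xs n (f - g)| ≤ B * (t / (B + 1)) := by
    have h2 := (xs n).le_opNorm (f - g)
    rw [Real.norm_eq_abs] at h2
    rw [dist_eq_norm] at hg2
    exact h2.trans (mul_le_mul (hB n) hg2.le (norm_nonneg _) hB0)
  rw [map_sub, h0, sub_zero] at h1
  have h3 : B * (t / (B + 1)) < t := by
    rw [mul_div_assoc', div_lt_iff₀ (by positivity)]
    nlinarith
  have h4 : t ≤ |xs n f| := hn
  linarith

/-- QGLC with respect to a norm gives the power bound for the threshold function. -/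
theorem power {X : Type} [NormedAddCommGroup X] [NormedSpace ℝ X] {x : ℕ → X}
    {xs : ℕ → X →L[ℝ] ℝ} (h : IsBasis x xs) {N : Seminorm ℝ X} {L : ℝ} (hL : 1 ≤ L)
    (hq : IsQGLC N x xs L) (k : ℕ) (f : X) (hf : ∀ n, |xs n f| ≤ 1) (A : Finset ℕ)
    (hA : ∀ n ∈ A, (1 - 1 / (2 * L ^ 2)) ^ k ≤ |xs n f|) :
    N (∑ n ∈ A, xs n f • x n) ≤ 2 * L ^ 2 * (1 + 4 * L ^ 2) ^ k * N f :=
  QGLC.power (N := N) (x := x) (xs := fun n => (xs n : X →ₗ[ℝ] ℝ)) h.biorth hq hL
    (finite_level h) k f hf A hA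

theorem theta_bounds {L : ℝ} (hL : 1 ≤ L) :
    0 < 1 - 1 / (2 * L ^ 2) ∧ 1 - 1 / (2 * L ^ 2) < 1 := by
  have hL0 : 0 < L := by linarith
  have hL2 : 1 ≤ L ^ 2 := one_le_pow₀ hL
  have hδ : 1 / (2 * L ^ 2) ≤ 1 / 2 := by
    rw [div_le_div_iff₀ (by positivity) (by norm_num)]
    linarith
  have hδ0 : 0 < 1 / (2 * L ^ 2) := by positivity
  constructor <;> linarith

/-- QGLC implies near unconditionality. -/
theorem nearly_of_qglc {X : Type} [NormedAddCommGroup X] [NormedSpace ℝ X] {x : ℕ → X}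
    {xs : ℕ → X →L[ℝ] ℝ} (h : IsBasis x xs) {L : ℝ} (hL : 1 ≤ L)
    (hq : IsQGLC (normSeminorm ℝ X) x xs L) : IsNearlyUnconditional x xs := by
  intro a ha _
  obtain ⟨h1, h2⟩ := theta_bounds hL
  obtain ⟨k, hk⟩ := exists_pow_lt_of_lt_one ha h2
  exact ⟨_, fun f hf A hA => power h hL hq k f hf A fun n hn => hk.le.trans (hA n hn)⟩

/-- **Theorem.** There is a real Banach space `X` such that for every `C` some nearly unconditional
basis of `X` is not `C`-QGLC under any equivalent norm on `X`. -/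
theorem result : ∃ (X : Type) (_ : NormedAddCommGroup X) (_ : NormedSpace ℝ X)
    (_ : CompleteSpace X), ∀ C : ℝ, ∃ (x : ℕ → X) (xs : ℕ → X →L[ℝ] ℝ),
      IsBasis x xs ∧ IsNearlyUnconditional x xs ∧
      ∀ N : Seminorm ℝ X, IsEquivNorm N → ¬ IsQGLC N x xs C := by
  classical
  have hinf : Infinite QGLCSpace.Om := by
    refine Infinite.of_injective (fun m : ℕ => (⟨(0, m, 0), ⟨0, by
      unfold QGLCSpace.sz
      rw [if_pos (Nat.zero_le _)]
      exact pow_pos (QGLCSpace.qq_pos 0) _⟩⟩ : QGLCSpace.Om)) ?_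
    intro m m' h
    have h1 := (Sigma.mk.inj_iff.1 h).1
    simp only [Prod.mk.injEq] at h1
    exact h1.2.1
  obtain ⟨e⟩ := nonempty_equiv_of_countable (α := ℕ) (β := QGLCSpace.Om)
  let S : Submodule ℝ QGLCSpace.L := (Submodule.span ℝ (Set.range QGLCSpace.u)).topologicalClosure
  have hS : IsClosed (S : Set QGLCSpace.L) := Submodule.isClosed_topologicalClosure _
  have hcomp : CompleteSpace S := hS.completeSpace_coe
  have huS : ∀ ω, QGLCSpace.u ω ∈ S := fun ω =>
    Submodule.le_topologicalClosure _ (Submodule.subset_span ⟨ω, rfl⟩)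
  have hxS : ∀ p ω, QGLCSpace.xv p ω ∈ S := fun p ω =>
    Submodule.le_topologicalClosure _ (QGLCSpace.xv_mem_span p ω)
  refine ⟨S, inferInstance, inferInstance, hcomp, fun C => ?_⟩
  -- the constants
  set L : ℝ := max C 1 with hLdef
  have hL : 1 ≤ L := le_max_right _ _
  obtain ⟨hθ0, hθ1⟩ := theta_bounds hL
  obtain ⟨κ, hκ⟩ := exists_pow_lt_of_lt_one (by norm_num : (0 : ℝ) < 1 / 4) hθ1
  obtain ⟨p, hp⟩ := exists_nat_gt (2 * (1 + 4 * L ^ 2) ^ κ)
  let x : ℕ → S := fun n => ⟨QGLCSpace.xv p (e n), hxS p (e n)⟩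
  let xs : ℕ → S →L[ℝ] ℝ := fun n => LinearMap.mkContinuous
    ((QGLCSpace.xf p (e n)) ∘ₗ S.subtype) 2 (fun y => by
      rw [Real.norm_eq_abs]; exact QGLCSpace.abs_xf_le p (e n) (y : QGLCSpace.L))
  have hxs : ∀ n (f : S), xs n f = QGLCSpace.xf p (e n) (f : QGLCSpace.L) := fun n f => rfl
  have hsum : ∀ (A : Finset ℕ) (c : QGLCSpace.Om → ℝ),
      ((∑ n ∈ A, c (e n) • x n : S) : QGLCSpace.L) =
      ∑ i ∈ A.map e.toEmbedding, c i • QGLCSpace.xv p i := by
    intro A c
    rw [Finset.sum_map, Submodule.coe_sum]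
    rfl
  have hbasis : IsBasis x xs := by
    refine ⟨⟨p + 2, fun n => QGLCSpace.norm_xv_le p (e n)⟩,
      ⟨2, fun n => LinearMap.mkContinuous_norm_le _ (by norm_num) _⟩, fun m n => ?_, ?_⟩
    · rw [hxs]
      have h1 : QGLCSpace.xf p (e m) ((x n : S) : QGLCSpace.L) = if e m = e n then 1 else 0 :=
        QGLCSpace.biorth p (e m) (e n)
      rw [h1]
      simp only [EmbeddingLike.apply_eq_iff_eq]
    · intro f
      rw [Metric.mem_closure_iff]
      intro ε hε
      have h1 : (f : QGLCSpace.L) ∈ closure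
          (Submodule.span ℝ (Set.range QGLCSpace.u) : Set QGLCSpace.L) := by
        have := f.2
        rwa [← SetLike.mem_coe, Submodule.topologicalClosure_coe] at this
      obtain ⟨g, hg1, hg2⟩ := Metric.mem_closure_iff.1 h1 ε hε
      have h2 : Submodule.span ℝ (Set.range QGLCSpace.u) =
          Submodule.map S.subtype (Submodule.span ℝ (Set.range x)) := by
        rw [Submodule.map_span, ← Set.range_comp, ← QGLCSpace.span_eq p]
        have h3 : (S.subtype ∘ x : ℕ → QGLCSpace.L) = QGLCSpace.xv p ∘ e := rfl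
        rw [h3, Set.range_comp, e.surjective.range_eq, Set.image_univ]
      rw [SetLike.mem_coe, h2] at hg1
      obtain ⟨z, hz1, hz2⟩ := hg1
      refine ⟨z, hz1, ?_⟩
      rw [← hz2] at hg2
      exact hg2
  have hqglc : IsQGLC (normSeminorm ℝ S) x xs (4 / 3 * (p + 2)) := by
    intro A ε hε f hf hf0
    set F : S := ∑ n ∈ A, ε n • x n + f with hF
    have h1 : ∀ n, xs n (∑ n ∈ A, ε n • x n) = if n ∈ A then ε n else 0 := fun n =>
      QGLC.xs_sum (x := x) (xs := fun n => (xs n : S →ₗ[ℝ] ℝ)) hbasis.biorth A ε n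
    have h2 : ∀ n, xs n F = if n ∈ A then ε n else xs n f := by
      intro n
      rw [hF, map_add, h1]
      split_ifs with h3
      · rw [hf0 n h3, add_zero]
      · rw [zero_add]
    have h3 := QGLCSpace.qglc p (A.map e.toEmbedding) (fun ω => ε (e.symm ω)) (fun ω hω => by
      rw [Finset.mem_map] at hω
      obtain ⟨n, hn, rfl⟩ := hω
      simp only [Equiv.coe_toEmbedding, Equiv.symm_apply_apply]
      exact hε n hn) (F : QGLCSpace.L) (fun ω => by
      have h4 : QGLCSpace.xf p ω (F : QGLCSpace.L) = xs (e.symm ω) F := by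
        rw [hxs, Equiv.apply_symm_apply]
      rw [h4, h2]
      split_ifs with h5
      · exact (hε _ h5).le
      · exact hf _) (fun ω hω => by
      rw [Finset.mem_map] at hω
      obtain ⟨n, hn, rfl⟩ := hω
      simp only [Equiv.coe_toEmbedding, Equiv.symm_apply_apply]
      rw [← hxs, h2, if_pos hn])
    have h4 := hsum A (fun ω => ε (e.symm ω))
    simp only [Equiv.symm_apply_apply] at h4
    rw [← h4] at h3
    exact h3
  refine ⟨x, xs, hbasis, nearly_of_qglc hbasis (by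
    have : (0 : ℝ) ≤ p := Nat.cast_nonneg p
    linarith) hqglc, ?_⟩
  -- no renorming
  rintro N ⟨c, C', hc, hN⟩ hNq
  have hNq' : IsQGLC N x xs L := by
    intro A ε hε f hf hf0
    exact (hNq A ε hε f hf hf0).trans (mul_le_mul_of_nonneg_right (le_max_left _ _)
      (apply_nonneg N _))
  have hC' : 0 ≤ C' := by
    obtain ⟨ω⟩ : Nonempty QGLCSpace.Om := inferInstance
    have h1 := hN (x 0)
    have h2 : xs 0 (x 0) = 1 := by rw [hbasis.biorth, if_pos rfl]
    have h3 : x 0 ≠ 0 := by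
      intro h3
      rw [h3, map_zero] at h2
      exact zero_ne_one h2
    have h4 : 0 < ‖x 0‖ := norm_pos_iff.2 h3
    by_contra hcon
    push Not at hcon
    have h5 := h1.1.trans h1.2
    have h6 : 0 < c * ‖x 0‖ := by positivity
    nlinarith
  have key : ∀ m : ℕ, c * 2 ^ m ≤ 2 * L ^ 2 * C' := by
    intro m
    have htS : QGLCSpace.tf p m ∈ S := by
      unfold QGLCSpace.tf
      exact Submodule.sum_mem _ fun ω _ => Submodule.smul_mem _ _ (huS ω)
    set f : S := ⟨QGLCSpace.tf p m, htS⟩ with hf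
    set A : Finset ℕ := (QGLCSpace.lev (p, m, 0)).map e.symm.toEmbedding with hA
    have hAmem : ∀ n, n ∈ A ↔ e n ∈ QGLCSpace.lev (p, m, 0) := by
      intro n
      rw [hA, Finset.mem_map_equiv, Equiv.symm_symm]
    have hAmap : A.map e.toEmbedding = QGLCSpace.lev (p, m, 0) := by
      ext j
      rw [Finset.mem_map_equiv, hAmem, Equiv.apply_symm_apply]
    have hxf : ∀ n, xs n f = QGLCSpace.ga p m (e n) := fun n => by
      rw [hxs]; exact QGLCSpace.xf_tf p m (e n)
    have h1 := power hbasis hL hNq' (κ * m) f (fun n => by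
      rw [hxf]
      unfold QGLCSpace.ga
      split_ifs with h2
      · rw [abs_of_pos (by positivity), div_le_one (by positivity)]
        refine pow_le_pow_right₀ (by norm_num) ?_
        rw [← h2.2]
        exact QGLCSpace.le_of_mem (e n)
      · rw [abs_zero]; exact zero_le_one) A (fun n hn => by
      rw [hAmem, QGLCSpace.mem_lev] at hn
      rw [hxf]
      unfold QGLCSpace.ga
      rw [hn, if_pos ⟨rfl, rfl⟩, pow_zero, abs_of_pos (by positivity), pow_mul, ← one_div_pow]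
      exact pow_le_pow_left₀ (by positivity) hκ.le m)
    have h2 := QGLCSpace.le_norm_proj p m
    have h3 := hsum A (fun ω => QGLCSpace.xf p ω (f : QGLCSpace.L))
    rw [hAmap] at h3
    rw [← h3] at h2
    have h4 : ((p : ℝ) + 1) ^ m ≤ ‖∑ n ∈ A, xs n f • x n‖ := h2
    have h5 := (hN (∑ n ∈ A, xs n f • x n)).1
    have h6 : N f ≤ C' := by
      have h7 : ‖f‖ ≤ 1 := QGLCSpace.norm_tf_le p m
      calc N f ≤ C' * ‖f‖ := (hN f).2
        _ ≤ C' * 1 := mul_le_mul_of_nonneg_left h7 hC'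
        _ = C' := mul_one C'
    have h7 : c * ((p : ℝ) + 1) ^ m ≤ 2 * L ^ 2 * (1 + 4 * L ^ 2) ^ (κ * m) * C' := by
      calc c * ((p : ℝ) + 1) ^ m ≤ c * ‖∑ n ∈ A, xs n f • x n‖ :=
            mul_le_mul_of_nonneg_left h4 hc.le
        _ ≤ N (∑ n ∈ A, xs n f • x n) := h5
        _ ≤ 2 * L ^ 2 * (1 + 4 * L ^ 2) ^ (κ * m) * N f := h1
        _ ≤ _ := mul_le_mul_of_nonneg_left h6 (by positivity)
    have h8 : (2 * (1 + 4 * L ^ 2) ^ κ) ^ m ≤ ((p : ℝ) + 1) ^ m :=
      pow_le_pow_left₀ (by positivity) (by linarith) m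
    rw [mul_pow, ← pow_mul] at h8
    have h9 : 0 < (1 + 4 * L ^ 2) ^ (κ * m) := by positivity
    have h10 : (1 + 4 * L ^ 2) ^ (κ * m) * (c * 2 ^ m) ≤
        (1 + 4 * L ^ 2) ^ (κ * m) * (2 * L ^ 2 * C') := by
      calc (1 + 4 * L ^ 2) ^ (κ * m) * (c * 2 ^ m) = c * (2 ^ m * (1 + 4 * L ^ 2) ^ (κ * m)) := by
            ring
        _ ≤ c * ((p : ℝ) + 1) ^ m := mul_le_mul_of_nonneg_left h8 hc.le
        _ ≤ _ := h7
        _ = _ := by ring
    exact le_of_mul_le_mul_left h10 h9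
  obtain ⟨m, hm⟩ := pow_unbounded_of_one_lt (2 * L ^ 2 * C' / c) (by norm_num : (1 : ℝ) < 2)
  have := key m
  rw [div_lt_iff₀ hc] at hm
  linarith

end Pool.Agent.Results.MP_142f15_an.NoUniformRenorming
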